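import Pool.Agent.Helper72.LSr.FDef
import Pool.Agent.Helper72.LSr.N1
import Pool.Agent.Helper72.LSr.C0

/-!
# LR-E2b (helper79)
-/

namespace Pool.Agent.Helper79.LSr

open Finset
open scoped Classical
open Pool.Agent.Helper72.LSr

theorem PartiteForm.comap {V W : Type} {G : SimpleGraph V} (hG : PartiteForm G) (e : W ≃ V) :
    PartiteForm (G.comap e) := by
  obtain ⟨K, c, i, hc, h1, h2, h3⟩ := hG
  refine ⟨K, fun w => c (e w), i, ?_, ?_, ?_, ?_⟩
  · intro j
    obtain ⟨v, hv⟩ := hc j
    exact ⟨e.symm v, by simp [hv]⟩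
  · intro u v huv
    exact h1 _ _ huv
  · intro u v huv hc'
    exact h2 _ _ huv hc'
  · -- triangle-free
    intro s hs
    rw [SimpleGraph.is3Clique_iff] at hs
    obtain ⟨a, b, c', hab, hac, hbc, -⟩ := hs
    have ha : c (e a.1) = i := a.2
    have hb : c (e b.1) = i := b.2
    have hc' : c (e c'.1) = i := c'.2
    apply h3 {⟨e a.1, ha⟩, ⟨e b.1, hb⟩, ⟨e c'.1, hc'⟩}
    rw [SimpleGraph.is3Clique_iff]
    exact ⟨⟨e a.1, ha⟩, ⟨e b.1, hb⟩, ⟨e c'.1, hc'⟩, hab, hac, hbc, rfl⟩

theorem partiteForm_bot {V : Type} [Nonempty V] : PartiteForm (⊥ : SimpleGraph V) := by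
  refine ⟨1, fun _ => 0, 0, ?_, ?_, ?_, ?_⟩
  · intro j
    obtain ⟨v⟩ := ‹Nonempty V›
    exact ⟨v, (Subsingleton.elim _ _)⟩
  · intro u v h
    exact absurd rfl h
  · intro u v h
    exact absurd h (by simp)
  · intro s hs
    rw [SimpleGraph.is3Clique_iff] at hs
    obtain ⟨a, b, c, hab, -⟩ := hs
    simp at hab

theorem numK_eq {V : Type} [Fintype V] (G : SimpleGraph V) (r : ℕ) :
    (numK r G : ℤ) = K G univ r := by
  unfold numK K
  have h : {s : Finset V | G.IsNClique r s} =
      (((univ : Finset V).powersetCard r).filter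
        (fun t : Finset V => G.IsClique (t : Set V)) : Finset (Finset V)) := by
    ext s
    simp only [Set.mem_ofPred_eq, coe_filter, mem_powersetCard, subset_univ, true_and]
    rw [SimpleGraph.isNClique_iff]
    tauto
  rw [h, Set.ncard_coe_finset]

theorem ncard_edgeSet {V : Type} [Fintype V] (G : SimpleGraph V) :
    (G.edgeSet.ncard : ℤ) = K G univ 2 := by
  rw [← numK_eq]
  unfold numK
  congr 1
  refine Set.ncard_congr (fun e _ => e.toFinset) ?_ ?_ ?_
  · intro e he
    induction e using Sym2.ind with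
    | _ x y =>
      rw [SimpleGraph.mem_edgeSet] at he
      rw [Set.mem_ofPred_eq, SimpleGraph.isNClique_iff, Sym2.toFinset_mk_eq]
      refine ⟨?_, card_pair he.ne⟩
      rw [coe_pair, SimpleGraph.isClique_pair]
      exact fun _ => he
  · intro e e' _ _ h
    ext x
    have := congrArg (fun s : Finset V => x ∈ s) h
    simpa using this
  · intro s hs
    rw [Set.mem_ofPred_eq, SimpleGraph.isNClique_iff, card_eq_two] at hs
    obtain ⟨h1, x, y, hxy, rfl⟩ := hs
    refine ⟨s(x, y), ?_, Sym2.toFinset_mk_eq⟩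
    rw [SimpleGraph.mem_edgeSet]
    exact h1 (by simp) (by simp) hxy

theorem K_comap {V W : Type} [Fintype V] [Fintype W] (G : SimpleGraph V) (e : W ≃ V) (r : ℕ) :
    K (G.comap e) univ r = K G univ r := by
  unfold K
  congr 1
  refine Finset.card_bij (fun t _ => t.map e.toEmbedding) ?_ ?_ ?_
  · intro t ht
    rw [mem_filter, mem_powersetCard] at ht ⊢
    refine ⟨⟨subset_univ _, by rw [card_map]; exact ht.1.2⟩, ?_⟩
    intro a ha b hb hab
    rw [mem_coe, mem_map] at ha hb
    obtain ⟨a', ha', rfl⟩ := ha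
    obtain ⟨b', hb', rfl⟩ := hb
    exact ht.2 ha' hb' (fun h => hab (by rw [h]))
  · intro t _ t' _ h
    exact Finset.map_injective _ h
  · intro s hs
    rw [mem_filter, mem_powersetCard] at hs
    refine ⟨s.map e.symm.toEmbedding, ?_, ?_⟩
    · rw [mem_filter, mem_powersetCard]
      refine ⟨⟨subset_univ _, by rw [card_map]; exact hs.1.2⟩, ?_⟩
      intro a ha b hb hab
      rw [mem_coe, mem_map] at ha hb
      obtain ⟨a', ha', rfl⟩ := ha
      obtain ⟨b', hb', rfl⟩ := hb
      have := hs.2 ha' hb' (fun h => hab (by rw [h]))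
      rw [SimpleGraph.comap_adj]
      simpa using this
    · ext x
      simp

theorem numK_bot {V : Type} (r : ℕ) (hr : 2 ≤ r) : numK r (⊥ : SimpleGraph V) = 0 := by
  unfold numK
  have h : {s : Finset V | (⊥ : SimpleGraph V).IsNClique r s} = ∅ := by
    rw [Set.eq_empty_iff_forall_notMem]
    intro s hs
    exact SimpleGraph.cliqueFree_bot hr s hs
  rw [h, Set.ncard_empty]

end Pool.Agent.Helper79.LSr
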